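import Mathlib
import Pool.Agent.J4H26.KP.Sup

/-!
# Project KP, part 3 (helper26): (P4), the mass of an interval
-/

set_option autoImplicit false

namespace Pool.Agent.J4H49.KP

open Finset Filter Real
open Pool.Agent.J4H39 (U Sm Sm_sum U_eq_Sm U_erf Erf Erf_mono)
open Pool.Agent.J4H26.KT (sw sw_rep)
open Pool.Agent.J4H26.AF (pm pm_eq)
open Pool.Agent.J4H26.KP

/-- `Erf` is strictly increasing -/
theorem Erf_lt {a b : ℝ} (h : a < b) : Erf a < Erf b := by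
  unfold Erf
  refine mul_lt_mul_of_pos_left ?_ (by positivity)
  have hc : Continuous fun u : ℝ => Real.exp (-u ^ 2) := by fun_prop
  have hi : ∀ x y : ℝ, IntervalIntegrable (fun u : ℝ => Real.exp (-u ^ 2)) MeasureTheory.volume x y :=
    fun x y => hc.intervalIntegrable x y
  have h1 : (∫ u in (0 : ℝ)..a, Real.exp (-u ^ 2)) + (∫ u in a..b, Real.exp (-u ^ 2)) =
      ∫ u in (0 : ℝ)..b, Real.exp (-u ^ 2) := intervalIntegral.integral_add_adjacent_intervals (hi _ _) (hi _ _)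
  have h2 : 0 < ∫ u in a..b, Real.exp (-u ^ 2) :=
    intervalIntegral.intervalIntegral_pos_of_pos (hi a b) (fun u => Real.exp_pos _) h
  linarith

/-- the sums over the two intervals -/
theorem Sm_diff (q d₁ d₂ : ℕ) : Sm q d₂ - Sm q d₁ ≤
    2 * ∑ l ∈ range (q + 1), (q.choose l : ℝ) / 2 ^ q * (if (d₁ : ℤ) ≤ 2 * (l : ℤ) - q ∧ 2 * (l : ℤ) - q ≤ d₂ then 1 else 0) := by
  set P : ℕ → ℝ := fun l => (q.choose l : ℝ) / 2 ^ q with hP
  set A : ℕ → ℝ := fun l => if (d₁ : ℤ) ≤ 2 * (l : ℤ) - q ∧ 2 * (l : ℤ) - q ≤ d₂ then 1 else 0 with hA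
  set B : ℕ → ℝ := fun l => if (d₁ : ℤ) ≤ q - 2 * (l : ℤ) ∧ q - 2 * (l : ℤ) ≤ d₂ then 1 else 0 with hB
  have hrefl : ∑ l ∈ range (q + 1), P l * B l = ∑ l ∈ range (q + 1), P l * A l := by
    rw [← sum_range_reflect (fun l => P l * A l) (q + 1)]
    refine sum_congr rfl fun l hl => ?_
    have hl' : l ≤ q := by
      rw [mem_range] at hl
      omega
    have e1 : q + 1 - 1 - l = q - l := by omega
    rw [e1]
    have e2 : P (q - l) = P l := by
      simp only [hP]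
      rw [Nat.choose_symm hl']
    have e3 : A (q - l) = B l := by
      simp only [hA, hB]
      have e4 : 2 * ((q - l : ℕ) : ℤ) - q = q - 2 * (l : ℤ) := by
        push_cast [Nat.cast_sub hl']
        ring
      rw [e4]
    rw [e2, e3]
  have h2 : 2 * ∑ l ∈ range (q + 1), P l * A l = ∑ l ∈ range (q + 1), (P l * A l + P l * B l) := by
    rw [sum_add_distrib, hrefl]
    ring
  rw [Sm_sum, Sm_sum, h2, ← sum_sub_distrib]
  refine sum_le_sum fun l _ => ?_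
  rw [← mul_sub, ← mul_add]
  refine mul_le_mul_of_nonneg_left ?_ (by positivity)
  have hA0 : 0 ≤ A l := by simp only [hA]; split_ifs <;> norm_num
  have hB0 : 0 ≤ B l := by simp only [hB]; split_ifs <;> norm_num
  by_cases h3 : -(d₁ : ℤ) ≤ 2 * (l : ℤ) - q ∧ 2 * (l : ℤ) - q < d₁
  · rw [if_pos h3]
    have : (if -(d₂ : ℤ) ≤ 2 * (l : ℤ) - q ∧ 2 * (l : ℤ) - q < d₂ then (1 : ℝ) else 0) ≤ 1 := by
      split_ifs <;> norm_num
    linarith
  · rw [if_neg h3]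
    by_cases h4 : -(d₂ : ℤ) ≤ 2 * (l : ℤ) - q ∧ 2 * (l : ℤ) - q < d₂
    · rw [if_pos h4]
      rcases le_or_gt (d₁ : ℤ) (2 * (l : ℤ) - q) with h5 | h5
      · have : A l = 1 := by
          simp only [hA]
          rw [if_pos ⟨h5, h4.2.le⟩]
        linarith
      · have : B l = 1 := by
          simp only [hB]
          rw [if_pos (by omega)]
        linarith
    · rw [if_neg h4]
      linarith

/-- **(P4)** -/
theorem t_MASS : S_MASS := by
  intro y w hy hw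
  have h2 : (0 : ℝ) < √2 := by positivity
  set gap : ℝ := Erf (√2 * (y + 3 * w / 4)) - Erf (√2 * (y + w / 4)) with hgap
  have hg : 0 < gap := by
    rw [hgap]
    refine sub_pos.2 (Erf_lt (mul_lt_mul_of_pos_left (by linarith) h2))
  obtain ⟨q₀, hq₀⟩ := U_erf (show 0 < gap / 4 by linarith)
  refine ⟨gap / 4, by linarith, ?_⟩
  have hlim : Tendsto (fun s : ℕ => √(s : ℝ)) atTop atTop :=
    Real.tendsto_sqrt_atTop.comp tendsto_natCast_atTop_atTop
  filter_upwards [eventually_ge_atTop q₀, eventually_ge_atTop 1, hlim.eventually_ge_atTop (2 / w)] with s hs hs1 hsw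
  have hs0 : (0 : ℝ) < √(s : ℝ) := Real.sqrt_pos.2 (by exact_mod_cast hs1)
  have hws : 2 ≤ w * √(s : ℝ) := by
    rw [div_le_iff₀ hw] at hsw
    linarith
  set d₁ : ℕ := ⌈2 * y * √(s : ℝ)⌉₊ with hd₁
  set d₂ : ℕ := ⌊2 * (y + w) * √(s : ℝ)⌋₊ with hd₂
  have a1 : 2 * y * √(s : ℝ) ≤ d₁ := Nat.le_ceil _
  have a2 : (d₁ : ℝ) < 2 * y * √(s : ℝ) + 1 := Nat.ceil_lt_add_one (by positivity)
  have b1 : (d₂ : ℝ) ≤ 2 * (y + w) * √(s : ℝ) := Nat.floor_le (by positivity)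
  have b2 : 2 * (y + w) * √(s : ℝ) < d₂ + 1 := Nat.lt_floor_add_one _
  have hsq : √(2 * (s : ℝ)) = √2 * √(s : ℝ) := Real.sqrt_mul (by norm_num) _
  have h22 : √2 * √2 = 2 := Real.mul_self_sqrt (by norm_num)
  have c1 : (d₁ : ℝ) / √(2 * (s : ℝ)) ≤ √2 * (y + w / 4) := by
    rw [hsq, div_le_iff₀ (by positivity)]
    have : √2 * (y + w / 4) * (√2 * √(s : ℝ)) = 2 * (y + w / 4) * √(s : ℝ) := by
      calc _ = (√2 * √2) * (y + w / 4) * √(s : ℝ) := by ring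
        _ = _ := by rw [h22]
    rw [this]
    nlinarith
  have c2 : √2 * (y + 3 * w / 4) ≤ (d₂ : ℝ) / √(2 * (s : ℝ)) := by
    rw [hsq, le_div_iff₀ (by positivity)]
    have : √2 * (y + 3 * w / 4) * (√2 * √(s : ℝ)) = 2 * (y + 3 * w / 4) * √(s : ℝ) := by
      calc _ = (√2 * √2) * (y + 3 * w / 4) * √(s : ℝ) := by ring
        _ = _ := by rw [h22]
    rw [this]
    nlinarith
  have e1 := abs_le.1 (hq₀ s hs d₁)
  have e2 := abs_le.1 (hq₀ s hs d₂)
  have e3 := Erf_mono c1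
  have e4 := Erf_mono c2
  have e5 : gap / 2 ≤ Sm s d₂ - Sm s d₁ := by
    rw [← U_eq_Sm, ← U_eq_Sm]
    rw [hgap]
    rw [hgap] at e1 e2
    linarith [e1.2, e2.1]
  have e6 := Sm_diff s d₁ d₂
  have e7 : ∑ l ∈ range (s + 1), (s.choose l : ℝ) / 2 ^ s *
      (if (d₁ : ℤ) ≤ 2 * (l : ℤ) - s ∧ 2 * (l : ℤ) - s ≤ d₂ then 1 else 0) ≤
      sw (fun u : ℤ => ge1 ⌈(s : ℝ) / 2 + y * √s⌉ u * le1 ⌊(s : ℝ) / 2 + (y + w) * √s⌋ u) s 0 := by
    rw [sw_rep]
    refine sum_le_sum fun l _ => ?_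
    rw [pm_eq]
    refine mul_le_mul_of_nonneg_left ?_ (by positivity)
    unfold ge1 le1
    by_cases h : (d₁ : ℤ) ≤ 2 * (l : ℤ) - s ∧ 2 * (l : ℤ) - s ≤ d₂
    · rw [if_pos h]
      have f1 : ((d₁ : ℤ) : ℝ) ≤ ((2 * (l : ℤ) - s : ℤ) : ℝ) := by exact_mod_cast h.1
      have f2 : ((2 * (l : ℤ) - s : ℤ) : ℝ) ≤ ((d₂ : ℤ) : ℝ) := by exact_mod_cast h.2
      push_cast at f1 f2
      have g1 : ⌈(s : ℝ) / 2 + y * √(s : ℝ)⌉ ≤ 0 + (l : ℤ) := by
        rw [Int.ceil_le]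
        push_cast
        linarith
      have g2 : 0 + (l : ℤ) ≤ ⌊(s : ℝ) / 2 + (y + w) * √(s : ℝ)⌋ := by
        rw [Int.le_floor]
        push_cast
        linarith
      rw [if_pos g1, if_pos g2]
      norm_num
    · rw [if_neg h]
      split_ifs <;> norm_num
  linarith

end Pool.Agent.J4H49.KP
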